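import Mathlib

/-!
# Cylindrical transformations over the 2-adic odometer: the building blocks

`cd K x` is the cyclic distance to `0` of the residue of `x : ℤ_[2]` modulo `2 ^ K`,
`A i` a bump of width `4 ^ (i ^ 2)` modulo `4 ^ ((i + 1) ^ 2)`, and
`psi d i y = (i + 1) (A i (y - d) - A i y)`.
-/

namespace Pool.Agent.R963.Bes

open Filter Topology

/-- cyclic distance to `0` of the residue of `x` modulo `2 ^ K` -/
noncomputable def cd (K : ℕ) (x : ℤ_[2]) : ℕ := (PadicInt.toZModPow K x).valMinAbs.natAbs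

lemma cd_congr {K : ℕ} {x y : ℤ_[2]} (h : PadicInt.toZModPow K x = PadicInt.toZModPow K y) :
    cd K x = cd K y := by
  unfold cd; rw [h]

lemma cd_add (K : ℕ) (x y : ℤ_[2]) : cd K (x + y) ≤ cd K x + cd K y := by
  unfold cd
  rw [map_add]
  exact (ZMod.natAbs_valMinAbs_add_le _ _).trans (Int.natAbs_add_le _ _)

lemma cd_neg (K : ℕ) (x : ℤ_[2]) : cd K (-x) = cd K x := by
  unfold cd
  rw [map_neg, ZMod.natAbs_valMinAbs_neg]

lemma cd_sub_comm (K : ℕ) (x y : ℤ_[2]) : cd K (x - y) = cd K (y - x) := by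
  rw [← cd_neg K (x - y), neg_sub]

lemma cd_int_le (K : ℕ) (n : ℤ) : cd K (n : ℤ_[2]) ≤ n.natAbs := by
  unfold cd
  rw [map_intCast]
  exact ZMod.natAbs_min_of_le_div_two (2 ^ K) _ _ (by rw [ZMod.coe_valMinAbs])
    (ZMod.natAbs_valMinAbs_le _)

lemma cd_int {K : ℕ} {n : ℤ} (h : 2 * n.natAbs < 2 ^ K) : cd K (n : ℤ_[2]) = n.natAbs := by
  unfold cd
  rw [map_intCast]
  congr 1
  rw [ZMod.valMinAbs_spec]
  refine ⟨rfl, ?_, ?_⟩
  · push_cast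
    have : (2 * n.natAbs : ℤ) < 2 ^ K := by exact_mod_cast h
    omega
  · push_cast
    have : (2 * n.natAbs : ℤ) < 2 ^ K := by exact_mod_cast h
    omega

lemma cd_zero (K : ℕ) : cd K 0 = 0 := by
  unfold cd; simp

lemma exists_rep (K : ℕ) (x : ℤ_[2]) : ∃ z : ℤ, z.natAbs = cd K x ∧
    PadicInt.toZModPow K x = (z : ZMod (2 ^ K)) ∧ 2 * z.natAbs ≤ 2 ^ K := by
  refine ⟨(PadicInt.toZModPow K x).valMinAbs, rfl, by rw [ZMod.coe_valMinAbs], ?_⟩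
  have := ZMod.natAbs_valMinAbs_le (PadicInt.toZModPow K x)
  omega

/-- congruence mod `2 ^ K` passes to smaller powers -/
lemma congr_of_le {K L : ℕ} (h : K ≤ L) {x y : ℤ_[2]}
    (hxy : PadicInt.toZModPow L x = PadicInt.toZModPow L y) :
    PadicInt.toZModPow K x = PadicInt.toZModPow K y := by
  rw [← PadicInt.cast_toZModPow K L h x, ← PadicInt.cast_toZModPow K L h y, hxy]

/-- the bump -/
noncomputable def A (i : ℕ) (y : ℤ_[2]) : ℝ :=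
  max 0 (1 - (cd (2 * (i + 1) ^ 2) y : ℝ) / 2 ^ (2 * i ^ 2))

lemma A_nonneg (i : ℕ) (y : ℤ_[2]) : 0 ≤ A i y := le_max_left _ _

lemma A_le_one (i : ℕ) (y : ℤ_[2]) : A i y ≤ 1 := by
  unfold A
  apply max_le zero_le_one
  have : (0 : ℝ) ≤ (cd (2 * (i + 1) ^ 2) y : ℝ) / 2 ^ (2 * i ^ 2) := by positivity
  linarith

lemma A_congr {i : ℕ} {x y : ℤ_[2]}
    (h : PadicInt.toZModPow (2 * (i + 1) ^ 2) x = PadicInt.toZModPow (2 * (i + 1) ^ 2) y) :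
    A i x = A i y := by
  unfold A; rw [cd_congr h]

lemma A_neg (i : ℕ) (y : ℤ_[2]) : A i (-y) = A i y := by
  unfold A; rw [cd_neg]

lemma A_zero (i : ℕ) : A i 0 = 1 := by
  unfold A; rw [cd_zero]; simp

lemma A_eq_zero {i : ℕ} {y : ℤ_[2]} (h : 2 ^ (2 * i ^ 2) ≤ cd (2 * (i + 1) ^ 2) y) :
    A i y = 0 := by
  unfold A
  apply max_eq_left
  have h1 : (2 : ℝ) ^ (2 * i ^ 2) ≤ cd (2 * (i + 1) ^ 2) y := by exact_mod_cast h
  have h2 : (0 : ℝ) < 2 ^ (2 * i ^ 2) := by positivity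
  rw [sub_nonpos, le_div_iff₀ h2]; linarith

lemma cd_lt_of_A_ne {i : ℕ} {y : ℤ_[2]} (h : A i y ≠ 0) :
    cd (2 * (i + 1) ^ 2) y < 2 ^ (2 * i ^ 2) := by
  by_contra hc
  exact h (A_eq_zero (not_lt.mp hc))

lemma A_lip (i : ℕ) (y w : ℤ_[2]) :
    |A i (y + w) - A i y| ≤ (cd (2 * (i + 1) ^ 2) w : ℝ) / 2 ^ (2 * i ^ 2) := by
  have h1 : (cd (2 * (i + 1) ^ 2) (y + w) : ℝ) ≤ cd (2 * (i + 1) ^ 2) y + cd (2 * (i + 1) ^ 2) w := by
    exact_mod_cast cd_add _ _ _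
  have h2 : (cd (2 * (i + 1) ^ 2) y : ℝ) ≤ cd (2 * (i + 1) ^ 2) (y + w) + cd (2 * (i + 1) ^ 2) w := by
    have := cd_add (2 * (i + 1) ^ 2) (y + w) (-w)
    rw [cd_neg, add_neg_cancel_right] at this
    exact_mod_cast this
  have hq : (0 : ℝ) < 2 ^ (2 * i ^ 2) := by positivity
  unfold A
  have h3 := abs_max_sub_max_le_abs (1 - (cd (2 * (i + 1) ^ 2) (y + w) : ℝ) / 2 ^ (2 * i ^ 2))
    (1 - (cd (2 * (i + 1) ^ 2) y : ℝ) / 2 ^ (2 * i ^ 2)) 0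
  rw [max_comm _ (0 : ℝ), max_comm _ (0 : ℝ)] at h3
  refine h3.trans ?_
  have h4 : (1 - (cd (2 * (i + 1) ^ 2) (y + w) : ℝ) / 2 ^ (2 * i ^ 2)) -
    (1 - (cd (2 * (i + 1) ^ 2) y : ℝ) / 2 ^ (2 * i ^ 2)) =
    ((cd (2 * (i + 1) ^ 2) y : ℝ) - (cd (2 * (i + 1) ^ 2) (y + w) : ℝ)) / 2 ^ (2 * i ^ 2) := by ring
  rw [h4, abs_div, abs_of_pos hq]
  apply div_le_div_of_nonneg_right _ hq.le
  rw [abs_le]; constructor <;> linarith

/-- the weighted difference of two bumps -/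
noncomputable def psi (d : ℤ_[2]) (i : ℕ) (y : ℤ_[2]) : ℝ :=
  ((i : ℝ) + 1) * (A i (y - d) - A i y)

lemma psi_flip (d : ℤ_[2]) (i : ℕ) (y : ℤ_[2]) : psi (-d) i (y - d) = - psi d i y := by
  unfold psi
  rw [sub_neg_eq_add, sub_add_cancel]; ring

lemma psi_abs_le (d : ℤ_[2]) (i : ℕ) (y : ℤ_[2]) : |psi d i y| ≤ (i : ℝ) + 1 := by
  unfold psi
  rw [abs_mul, abs_of_nonneg (by positivity : (0 : ℝ) ≤ (i : ℝ) + 1)]
  have : |A i (y - d) - A i y| ≤ 1 := by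
    rw [abs_le]
    constructor <;> linarith [A_nonneg i y, A_nonneg i (y - d), A_le_one i y, A_le_one i (y - d)]
  nlinarith [(by positivity : (0 : ℝ) ≤ (i : ℝ) + 1)]

lemma psi_congr {d : ℤ_[2]} {i : ℕ} {x y : ℤ_[2]}
    (h : PadicInt.toZModPow (2 * (i + 1) ^ 2) x = PadicInt.toZModPow (2 * (i + 1) ^ 2) y) :
    psi d i x = psi d i y := by
  unfold psi
  rw [A_congr h, A_congr (x := x - d) (y := y - d) (by rw [map_sub, map_sub, h])]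

lemma psi_lip (d : ℤ_[2]) (i : ℕ) (y : ℤ_[2]) (n : ℤ) :
    |psi d i (y + n) - psi d i y| ≤ 2 * ((i : ℝ) + 1) * |(n : ℝ)| / 2 ^ (2 * i ^ 2) := by
  have h1 := A_lip i (y - d) (n : ℤ_[2])
  have h2 := A_lip i y (n : ℤ_[2])
  have h3 : (cd (2 * (i + 1) ^ 2) (n : ℤ_[2]) : ℝ) ≤ |(n : ℝ)| := by
    have := cd_int_le (2 * (i + 1) ^ 2) n
    have h : ((cd (2 * (i + 1) ^ 2) (n : ℤ_[2]) : ℕ) : ℝ) ≤ (n.natAbs : ℝ) := by exact_mod_cast this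
    rwa [Nat.cast_natAbs, Int.cast_abs] at h
  have hq : (0 : ℝ) < 2 ^ (2 * i ^ 2) := by positivity
  have h4 : (cd (2 * (i + 1) ^ 2) (n : ℤ_[2]) : ℝ) / 2 ^ (2 * i ^ 2) ≤ |(n : ℝ)| / 2 ^ (2 * i ^ 2) :=
    div_le_div_of_nonneg_right h3 hq.le
  have h5 : psi d i (y + n) - psi d i y = ((i : ℝ) + 1) *
      ((A i (y - d + n) - A i (y - d)) - (A i (y + n) - A i y)) := by
    unfold psi
    rw [show y + (n : ℤ_[2]) - d = y - d + n by ring]; ring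
  rw [h5, abs_mul, abs_of_nonneg (by positivity : (0 : ℝ) ≤ (i : ℝ) + 1)]
  have h6 : |(A i (y - d + n) - A i (y - d)) - (A i (y + n) - A i y)| ≤
      2 * (|(n : ℝ)| / 2 ^ (2 * i ^ 2)) := by
    refine (abs_sub _ _).trans ?_
    linarith
  calc ((i : ℝ) + 1) * |(A i (y - d + n) - A i (y - d)) - (A i (y + n) - A i y)|
      ≤ ((i : ℝ) + 1) * (2 * (|(n : ℝ)| / 2 ^ (2 * i ^ 2))) :=
        mul_le_mul_of_nonneg_left h6 (by positivity)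
    _ = _ := by ring

/-- the comparison series -/
lemma summable_w : Summable (fun i : ℕ => ((i : ℝ) + 1) * (1 / 4) ^ i) := by
  have h1 : Summable (fun i : ℕ => (i : ℝ) ^ 1 * (1 / 4 : ℝ) ^ i) :=
    summable_pow_mul_geometric_of_norm_lt_one 1 (by norm_num)
  have h2 : Summable (fun i : ℕ => (1 / 4 : ℝ) ^ i) :=
    summable_geometric_of_lt_one (by norm_num) (by norm_num)
  refine (h1.add h2).congr fun i => ?_
  simp; ring

/-- ratio bound: `q_k / q_i ≤ 4 ^ (-i)` for `i > k` -/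
lemma q_ratio {k i : ℕ} (h : k + 1 ≤ i) :
    (2 : ℝ) ^ (2 * k ^ 2) / 2 ^ (2 * i ^ 2) ≤ (1 / 4) ^ i := by
  rw [div_le_iff₀ (by positivity)]
  have h1 : (1 / 4 : ℝ) ^ i * 2 ^ (2 * i ^ 2) = 2 ^ (2 * i ^ 2 - 2 * i) := by
    have hle : 2 * i ≤ 2 * i ^ 2 := by nlinarith [Nat.zero_le i, Nat.one_le_iff_ne_zero.mpr (by omega : i ≠ 0)]
    rw [show (1 / 4 : ℝ) = (2 ^ 2)⁻¹ by norm_num, inv_pow, ← pow_mul, inv_mul_eq_div,
      div_eq_iff (by positivity), ← pow_add, Nat.sub_add_cancel hle]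
  rw [h1]
  apply pow_le_pow_right₀ one_le_two
  have h2 : (k + 1) ^ 2 ≤ i ^ 2 := Nat.pow_le_pow_left h 2
  zify [show 2 * i ≤ 2 * i ^ 2 by nlinarith [Nat.one_le_iff_ne_zero.mpr (by omega : i ≠ 0)]]
  have h3 : (k : ℤ) + 1 ≤ i := by exact_mod_cast h
  nlinarith

lemma q_inv (i : ℕ) : (1 : ℝ) / 2 ^ (2 * i ^ 2) ≤ (1 / 4) ^ i := by
  rw [show (1 / 4 : ℝ) = (2 ^ 2)⁻¹ by norm_num, inv_pow, ← pow_mul, one_div]
  apply inv_anti₀ (by positivity)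
  apply pow_le_pow_right₀ one_le_two
  nlinarith [Nat.le_self_pow (n := 2) (by norm_num) i]

/-- the terms of the cocycle -/
noncomputable def tm (d y : ℤ_[2]) (n : ℤ) (i : ℕ) : ℝ := psi d i (y + n) - psi d i y

lemma tm_le (d y : ℤ_[2]) (n : ℤ) (i : ℕ) :
    |tm d y n i| ≤ 2 * |(n : ℝ)| * (((i : ℝ) + 1) * (1 / 4) ^ i) := by
  unfold tm
  refine (psi_lip d i y n).trans ?_
  have := q_inv i
  have h0 : (0 : ℝ) ≤ 2 * |(n : ℝ)| * ((i : ℝ) + 1) := by positivity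
  calc 2 * ((i : ℝ) + 1) * |(n : ℝ)| / 2 ^ (2 * i ^ 2)
      = 2 * |(n : ℝ)| * ((i : ℝ) + 1) * (1 / 2 ^ (2 * i ^ 2)) := by ring
    _ ≤ 2 * |(n : ℝ)| * ((i : ℝ) + 1) * (1 / 4) ^ i := mul_le_mul_of_nonneg_left this h0
    _ = _ := by ring

lemma summable_tm (d y : ℤ_[2]) (n : ℤ) : Summable (tm d y n) :=
  Summable.of_norm_bounded (summable_w.mul_left (2 * |(n : ℝ)|)) (fun i => by
    rw [Real.norm_eq_abs]; exact tm_le d y n i)

/-- the cocycle -/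
noncomputable def Phi (d y : ℤ_[2]) (n : ℤ) : ℝ := ∑' i, tm d y n i

lemma Phi_zero (d y : ℤ_[2]) : Phi d y 0 = 0 := by
  unfold Phi tm; simp

lemma Phi_add (d y : ℤ_[2]) (m n : ℤ) : Phi d y (m + n) = Phi d y m + Phi d (y + m) n := by
  unfold Phi
  rw [← (summable_tm d y m).tsum_add (summable_tm d (y + m) n)]
  apply tsum_congr
  intro i
  unfold tm
  push_cast
  rw [add_assoc]; ring

lemma Phi_flip (d y : ℤ_[2]) (n : ℤ) : Phi (-d) (y - d) n = - Phi d y n := by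
  unfold Phi
  rw [← tsum_neg]
  apply tsum_congr
  intro i
  unfold tm
  rw [show y - d + (n : ℤ_[2]) = y + n - d by ring, psi_flip, psi_flip]; ring

lemma Phi_one_bound : ∃ C : ℝ, 0 ≤ C ∧ ∀ (d y : ℤ_[2]) (n : ℤ), |Phi d y n| ≤ C * |(n : ℝ)| := by
  refine ⟨2 * ∑' i : ℕ, ((i : ℝ) + 1) * (1 / 4) ^ i,
    mul_nonneg zero_le_two (tsum_nonneg fun i => by positivity), fun d y n => ?_⟩
  unfold Phi
  have h1 : ‖∑' i, tm d y n i‖ ≤ ∑' i : ℕ, 2 * |(n : ℝ)| * (((i : ℝ) + 1) * (1 / 4) ^ i) :=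
    tsum_of_norm_bounded (summable_w.mul_left (2 * |(n : ℝ)|)).hasSum
      (fun i => by rw [Real.norm_eq_abs]; exact tm_le d y n i)
  rw [Real.norm_eq_abs, tsum_mul_left] at h1
  linarith

end Pool.Agent.R963.Bes
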