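import Pool.Agent.R963.Bes.Base

/-!
# The three dynamical facts about the cocycle `Phi`
-/

namespace Pool.Agent.R963.Bes

open Filter Topology

/-- `d` is far from `0` at all scales -/
def Far (d : ℤ_[2]) : Prop := ∀ i : ℕ, 2 ^ (2 * i ^ 2) ≤ cd (2 * (i + 1) ^ 2) d

lemma Far.neg {d : ℤ_[2]} (h : Far d) : Far (-d) := by
  intro i; rw [cd_neg]; exact h i

lemma Far.A_eq {d : ℤ_[2]} (h : Far d) (i : ℕ) : A i d = 0 := A_eq_zero (h i)

/-- (1) divergence to `+∞` along the orbit of `0` -/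
lemma Phi_zero_orbit {d : ℤ_[2]} (h : Far d) (B : ℝ) :
    ∃ R : ℕ, ∀ n : ℤ, R ≤ n.natAbs → B ≤ Phi d 0 n := by
  obtain ⟨i0, hi0⟩ := exists_nat_ge (2 * B)
  refine ⟨2 ^ (2 * i0 ^ 2), fun n hn => ?_⟩
  have hex : ∃ m : ℕ, 2 * n.natAbs < 2 ^ (2 * m ^ 2) := by
    refine ⟨2 * n.natAbs, Nat.lt_two_pow_self.trans_le ?_⟩
    apply Nat.pow_le_pow_right (by norm_num)
    nlinarith [Nat.le_self_pow (n := 2) (by norm_num) (2 * n.natAbs)]
  classical
  set m := Nat.find hex with hm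
  have hm1 : 2 * n.natAbs < 2 ^ (2 * m ^ 2) := Nat.find_spec hex
  have hmi : i0 < m := by
    by_contra hc
    have : (2 : ℕ) ^ (2 * m ^ 2) ≤ 2 ^ (2 * i0 ^ 2) := by
      apply Nat.pow_le_pow_right (by norm_num)
      have := Nat.pow_le_pow_left (not_lt.mp hc) 2
      omega
    omega
  obtain ⟨i, him⟩ : ∃ i, m = i + 1 := ⟨m - 1, by omega⟩
  have hi : 2 ^ (2 * i ^ 2) ≤ 2 * n.natAbs := by
    have := Nat.find_min hex (m := i) (by omega)
    omega
  rw [him] at hm1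
  have hterm : ∀ j, tm d 0 n j = ((j : ℝ) + 1) * (1 + A j ((n : ℤ_[2]) - d) - A j (n : ℤ_[2])) := by
    intro j
    unfold tm psi
    rw [zero_add, zero_sub, A_neg, h.A_eq, A_zero]; ring
  have hnn : ∀ j, 0 ≤ tm d 0 n j := by
    intro j
    rw [hterm]
    apply mul_nonneg (by positivity)
    linarith [A_nonneg j ((n : ℤ_[2]) - d), A_le_one j (n : ℤ_[2])]
  have hAi : A i (n : ℤ_[2]) ≤ 1 / 2 := by
    unfold A
    rw [cd_int hm1]
    apply max_le (by norm_num)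
    have hq : (0 : ℝ) < 2 ^ (2 * i ^ 2) := by positivity
    have h1 : (2 : ℝ) ^ (2 * i ^ 2) ≤ 2 * (n.natAbs : ℝ) := by exact_mod_cast hi
    have h2 : (1 / 2 : ℝ) ≤ (n.natAbs : ℝ) / 2 ^ (2 * i ^ 2) := by
      rw [le_div_iff₀ hq]; linarith
    linarith
  have hle : tm d 0 n i ≤ Phi d 0 n := by
    unfold Phi
    exact (summable_tm d 0 n).le_tsum i (fun j _ => hnn j)
  have hi0' : (i0 : ℝ) ≤ i := by exact_mod_cast (by omega : i0 ≤ i)
  have h3 : ((i : ℝ) + 1) / 2 ≤ tm d 0 n i := by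
    rw [hterm]
    have := A_nonneg i ((n : ℤ_[2]) - d)
    nlinarith [(by positivity : (0 : ℝ) ≤ (i : ℝ) + 1)]
  linarith

/-- a point which is not an integer has infinitely many small bumps -/
lemma infinite_small {y : ℤ_[2]} (hy : ∀ z : ℤ, y ≠ z) : {i : ℕ | A i y ≤ 1 / 2}.Infinite := by
  intro hfin
  obtain ⟨N, hN⟩ := hfin.bddAbove
  have hbig : ∀ i, N + 1 ≤ i → 2 * cd (2 * (i + 1) ^ 2) y < 2 ^ (2 * i ^ 2) := by
    intro i hi
    have h1 : ¬ A i y ≤ 1 / 2 := fun hc => by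
      have := hN (show i ∈ {i : ℕ | A i y ≤ 1 / 2} from hc); omega
    have hq : (0 : ℝ) < 2 ^ (2 * i ^ 2) := by positivity
    by_contra hc
    apply h1
    unfold A
    apply max_le (by norm_num)
    have h2 : (2 : ℝ) ^ (2 * i ^ 2) ≤ 2 * (cd (2 * (i + 1) ^ 2) y : ℝ) := by
      exact_mod_cast not_lt.mp hc
    have h3 : (1 / 2 : ℝ) ≤ (cd (2 * (i + 1) ^ 2) y : ℝ) / 2 ^ (2 * i ^ 2) := by
      rw [le_div_iff₀ hq]; linarith
    linarith
  choose z hz1 hz2 hz3 using fun i : ℕ => exists_rep (2 * (i + 1) ^ 2) y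
  have hstep : ∀ i, N + 1 ≤ i → z (i + 1) = z i := by
    intro i hi
    have hb1 := hbig i hi
    have hb2 := hbig (i + 1) (by omega)
    rw [← hz1] at hb1 hb2
    have hmono : (2 : ℕ) ^ (2 * i ^ 2) ≤ 2 ^ (2 * (i + 1) ^ 2) := by
      apply Nat.pow_le_pow_right (by norm_num)
      have := Nat.pow_le_pow_left (Nat.le_succ i) 2
      simp only [Nat.succ_eq_add_one] at this
      omega
    have hcong : PadicInt.toZModPow (2 * (i + 1) ^ 2) ((z (i + 1) : ℤ) : ℤ_[2]) =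
        PadicInt.toZModPow (2 * (i + 1) ^ 2) y := by
      apply congr_of_le (L := 2 * (i + 1 + 1) ^ 2)
      · have := Nat.pow_le_pow_left (Nat.le_succ (i + 1)) 2
        simp only [Nat.succ_eq_add_one] at this
        omega
      · rw [map_intCast, hz2 (i + 1)]
    rw [map_intCast, hz2 i, ← sub_eq_zero, ← Int.cast_sub,
      ZMod.intCast_zmod_eq_zero_iff_dvd] at hcong
    have h0 : z (i + 1) - z i = 0 := by
      apply Int.eq_zero_of_abs_lt_dvd hcong
      push_cast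
      have e1 : (2 * (z (i + 1)).natAbs : ℤ) < 2 ^ (2 * (i + 1) ^ 2) := by exact_mod_cast hb2
      have e2 : (2 * (z i).natAbs : ℤ) < 2 ^ (2 * (i + 1) ^ 2) := by
        exact_mod_cast hb1.trans_le hmono
      rw [abs_lt]
      constructor <;> omega
    omega
  have hconst : ∀ i, N + 1 ≤ i → z i = z (N + 1) := by
    intro i hi
    induction i, hi using Nat.le_induction with
    | base => rfl
    | succ i hi ih => rw [hstep i hi, ih]
  apply hy (z (N + 1))
  rw [← PadicInt.ext_of_toZModPow]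
  intro n
  apply congr_of_le (L := 2 * (max n (N + 1) + 1) ^ 2)
  · have h1 : n ≤ max n (N + 1) := le_max_left _ _
    nlinarith [Nat.le_self_pow (n := 2) (by norm_num) (max n (N + 1) + 1)]
  · rw [hz2 (max n (N + 1)), map_intCast, hconst _ (le_max_right _ _)]

/-- terms at a point congruent to `0` -/
lemma tm_of_congr {d : ℤ_[2]} (h : Far d) {y : ℤ_[2]} {n : ℤ} {i : ℕ}
    (hc : PadicInt.toZModPow (2 * (i + 1) ^ 2) (y + (n : ℤ_[2])) = 0) :
    tm d y n i = -(((i : ℝ) + 1) * (1 + A i (y - d) - A i y)) := by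
  have h1 : psi d i (y + n) = psi d i 0 := psi_congr (by rw [hc, map_zero])
  unfold tm
  rw [h1]
  unfold psi
  rw [zero_sub, A_neg, h.A_eq, A_zero]; ring

/-- far translates of a point cannot both be near `0` -/
lemma not_both {i : ℕ} (hi : 1 ≤ i) (u : ℤ_[2]) {l : ℤ} (hl1 : 1 ≤ l) (hl2 : l ≤ 2) :
    A i u = 0 ∨ A i (u + ((2 * l * 2 ^ (2 * i ^ 2) : ℤ) : ℤ_[2])) = 0 := by
  by_contra hc
  rw [not_or] at hc
  have h1 := cd_lt_of_A_ne hc.1
  have h2 := cd_lt_of_A_ne hc.2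
  have h3 := cd_add (2 * (i + 1) ^ 2) (u + ((2 * l * 2 ^ (2 * i ^ 2) : ℤ) : ℤ_[2])) (-u)
  rw [cd_neg, show u + ((2 * l * 2 ^ (2 * i ^ 2) : ℤ) : ℤ_[2]) + -u =
    ((2 * l * 2 ^ (2 * i ^ 2) : ℤ) : ℤ_[2]) by ring] at h3
  have hq : (0 : ℤ) < 2 ^ (2 * i ^ 2) := by positivity
  have habs : ((2 * l * 2 ^ (2 * i ^ 2) : ℤ).natAbs : ℤ) = 2 * l * 2 ^ (2 * i ^ 2) := by
    rw [Int.natCast_natAbs, abs_of_pos (by positivity)]
  have hbig : (8 : ℤ) * 2 ^ (2 * i ^ 2) < 2 ^ (2 * (i + 1) ^ 2) := by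
    have : (8 : ℤ) * 2 ^ (2 * i ^ 2) = 2 ^ (2 * i ^ 2 + 3) := by rw [pow_add]; ring
    rw [this]
    apply pow_lt_pow_right₀ (by norm_num)
    nlinarith
  have h4 : cd (2 * (i + 1) ^ 2) ((2 * l * 2 ^ (2 * i ^ 2) : ℤ) : ℤ_[2]) =
      (2 * l * 2 ^ (2 * i ^ 2) : ℤ).natAbs := by
    apply cd_int
    zify
    rw [← Int.natCast_natAbs, habs]
    nlinarith
  rw [h4] at h3
  have h5 : (2 * l * 2 ^ (2 * i ^ 2) : ℤ) < 2 ^ (2 * i ^ 2) + 2 ^ (2 * i ^ 2) := by
    rw [← habs]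
    exact_mod_cast h3.trans_lt (by omega :
      cd (2 * (i + 1) ^ 2) (u + ((2 * l * 2 ^ (2 * i ^ 2) : ℤ) : ℤ_[2])) + cd (2 * (i + 1) ^ 2) u <
      2 ^ (2 * i ^ 2) + 2 ^ (2 * i ^ 2))
  nlinarith

/-- the good integer at scale `k` -/
lemma exists_good {d : ℤ_[2]} (y : ℤ_[2]) (hd : Far d) {k : ℕ} (hk : 1 ≤ k) :
    ∃ n : ℤ, |(n : ℝ)| ≤ 3 * 2 ^ (2 * k ^ 2) ∧
      (∀ i < k, PadicInt.toZModPow (2 * (i + 1) ^ 2) (y + (n : ℤ_[2])) = 0) ∧ tm d y n k ≤ 0 := by
  have hqz : (0 : ℤ) < 2 ^ (2 * k ^ 2) := by positivity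
  obtain ⟨z, hz1, hz2, hz3⟩ := exists_rep (2 * (k + 1) ^ 2) y
  by_cases hA : z.natAbs < 2 ^ (2 * k ^ 2)
  · refine ⟨-z, ?_, ?_, ?_⟩
    · have h1 : ((z.natAbs : ℕ) : ℤ) < 2 ^ (2 * k ^ 2) := by exact_mod_cast hA
      rw [Int.natCast_natAbs] at h1
      have h2 : ((|z| : ℤ) : ℝ) < 2 ^ (2 * k ^ 2) := by exact_mod_cast h1
      push_cast at h2 ⊢
      rw [abs_neg]
      have : (0 : ℝ) < 2 ^ (2 * k ^ 2) := by positivity
      linarith
    · intro i hi
      have h0 : PadicInt.toZModPow (2 * (k + 1) ^ 2) (y + ((-z : ℤ) : ℤ_[2])) =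
          PadicInt.toZModPow (2 * (k + 1) ^ 2) 0 := by
        rw [map_add, hz2, map_intCast, map_zero]; push_cast; ring
      have := congr_of_le (K := 2 * (i + 1) ^ 2) (by
        have := Nat.pow_le_pow_left (show i + 1 ≤ k + 1 by omega) 2
        omega) h0
      rw [this, map_zero]
    · rw [tm_of_congr hd (by rw [map_add, hz2, map_intCast]; push_cast; ring)]
      have := A_nonneg k (y - d)
      have := A_le_one k y
      have : 0 ≤ ((k : ℝ) + 1) * (1 + A k (y - d) - A k y) :=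
        mul_nonneg (by positivity) (by linarith)
      linarith
  · have hAk : A k y = 0 := A_eq_zero (by rw [← hz1]; exact not_lt.mp hA)
    obtain ⟨w, hw1, hw2, hw3⟩ := exists_rep (2 * k ^ 2) y
    have key : ∀ n : ℤ, (∃ e : ℤ, n = -w + e * 2 ^ (2 * k ^ 2) ∧ 0 ≤ e ∧ e ≤ 2) →
        A k (y + n - d) = 0 → |(n : ℝ)| ≤ 3 * 2 ^ (2 * k ^ 2) ∧
        (∀ i < k, PadicInt.toZModPow (2 * (i + 1) ^ 2) (y + (n : ℤ_[2])) = 0) ∧ tm d y n k ≤ 0 := by
      rintro n ⟨e, hne, he0, he2⟩ hn0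
      refine ⟨?_, ?_, ?_⟩
      · have h1 : (2 * (w.natAbs : ℕ) : ℤ) ≤ 2 ^ (2 * k ^ 2) := by exact_mod_cast hw3
        have h2 : |n| ≤ 3 * 2 ^ (2 * k ^ 2) := by
          rw [Int.natCast_natAbs] at h1
          rw [hne]
          have h3 : |e * 2 ^ (2 * k ^ 2)| ≤ 2 * 2 ^ (2 * k ^ 2) := by
            rw [abs_of_nonneg (by positivity)]
            exact mul_le_mul_of_nonneg_right he2 hqz.le
          have h4 := abs_add_le (-w) (e * 2 ^ (2 * k ^ 2))
          rw [abs_neg] at h4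
          have := abs_nonneg w
          linarith
        exact_mod_cast h2
      · intro i hi
        have h0 : PadicInt.toZModPow (2 * k ^ 2) (y + (n : ℤ_[2])) =
            PadicInt.toZModPow (2 * k ^ 2) 0 := by
          rw [map_add, hw2, map_intCast, map_zero, hne]
          push_cast
          have : ((2 : ZMod (2 ^ (2 * k ^ 2))) ^ (2 * k ^ 2)) = 0 := by
            have := ZMod.natCast_self (2 ^ (2 * k ^ 2))
            push_cast at this
            exact this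
          rw [this]; ring
        have := congr_of_le (K := 2 * (i + 1) ^ 2) (by
          have := Nat.pow_le_pow_left (show i + 1 ≤ k by omega) 2
          omega) h0
        rw [this, map_zero]
      · unfold tm psi
        rw [hn0, hAk]
        have := A_nonneg k (y - d)
        have := A_nonneg k (y + n)
        have h1 : 0 ≤ ((k : ℝ) + 1) * A k (y - d) := by positivity
        have h2 : 0 ≤ ((k : ℝ) + 1) * A k (y + n) := by positivity
        nlinarith
    rcases not_both hk (y + ((-w : ℤ) : ℤ_[2]) - d) (l := 1) le_rfl (by norm_num) with h | h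
    · exact ⟨-w, key (-w) ⟨0, by ring, le_rfl, by norm_num⟩ h⟩
    · refine ⟨-w + 2 * 2 ^ (2 * k ^ 2), key _ ⟨2, by ring, by norm_num, le_rfl⟩ ?_⟩
      rw [← h]
      congr 1
      push_cast; ring

/-- (2) unboundedness from below off the integers -/
lemma Phi_unbdd_below {d y : ℤ_[2]} (hd : Far d) (hy : ∀ z : ℤ, y ≠ z) (B : ℝ) :
    ∃ n : ℤ, Phi d y n ≤ B := by
  classical
  set S : ℝ := ∑' i : ℕ, ((i : ℝ) + 1) * (1 / 4) ^ i with hS
  obtain ⟨M, hM⟩ := exists_nat_ge (2 * (6 * S - B))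
  obtain ⟨t, htJ, htc⟩ := (infinite_small hy).exists_subset_card_eq M
  obtain ⟨k, hk1, hk⟩ : ∃ k : ℕ, 1 ≤ k ∧ ∀ i ∈ t, i < k :=
    ⟨t.sup id + 1, by omega, fun i hi => Nat.lt_succ_of_le (Finset.le_sup (f := id) hi)⟩
  obtain ⟨n, hn1, hn2, hn3⟩ := exists_good y hd hk1
  refine ⟨n, ?_⟩
  have hbound : ∀ i, tm d y n i ≤ (if i ∈ t then (-(1 / 2) : ℝ) else 0) +
      6 * (((i : ℝ) + 1) * (1 / 4) ^ i) := by
    intro i
    have hpos : 0 ≤ 6 * (((i : ℝ) + 1) * (1 / 4) ^ i) := by positivity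
    rcases lt_trichotomy i k with hik | hik | hik
    · rw [tm_of_congr hd (hn2 i hik)]
      have h1 := A_nonneg i (y - d)
      have h2 := A_le_one i y
      split_ifs with hit
      · have h3 : A i y ≤ 1 / 2 := htJ hit
        have : (1 : ℝ) / 2 ≤ ((i : ℝ) + 1) * (1 + A i (y - d) - A i y) := by
          have h4 : (1 : ℝ) / 2 ≤ 1 + A i (y - d) - A i y := by linarith
          have h5 : (0 : ℝ) ≤ i := Nat.cast_nonneg i
          nlinarith
        linarith
      · have : 0 ≤ ((i : ℝ) + 1) * (1 + A i (y - d) - A i y) :=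
          mul_nonneg (by positivity) (by linarith)
        linarith
    · subst hik
      rw [if_neg (fun hit => lt_irrefl _ (hk _ hit))]
      linarith
    · rw [if_neg (fun hit => lt_asymm hik (hk _ hit))]
      have h1 := (abs_le.mp (psi_lip d i y n)).2
      have h2 : 2 * ((i : ℝ) + 1) * |(n : ℝ)| / 2 ^ (2 * i ^ 2) ≤
          6 * (((i : ℝ) + 1) * (1 / 4) ^ i) := by
        have h3 := q_ratio (k := k) (i := i) hik
        have hq : (0 : ℝ) < 2 ^ (2 * i ^ 2) := by positivity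
        calc 2 * ((i : ℝ) + 1) * |(n : ℝ)| / 2 ^ (2 * i ^ 2)
            ≤ 2 * ((i : ℝ) + 1) * (3 * 2 ^ (2 * k ^ 2)) / 2 ^ (2 * i ^ 2) :=
              div_le_div_of_nonneg_right (mul_le_mul_of_nonneg_left hn1 (by positivity)) hq.le
          _ = 6 * ((i : ℝ) + 1) * (2 ^ (2 * k ^ 2) / 2 ^ (2 * i ^ 2)) := by ring
          _ ≤ 6 * ((i : ℝ) + 1) * (1 / 4) ^ i := mul_le_mul_of_nonneg_left h3 (by positivity)
          _ = _ := by ring
      unfold tm
      linarith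
  have hs1 : HasSum (fun i : ℕ => if i ∈ t then (-(1 / 2) : ℝ) else 0) (-(M : ℝ) / 2) := by
    have h1 : HasSum (fun i : ℕ => if i ∈ t then (-(1 / 2) : ℝ) else 0)
        (∑ i ∈ t, (if i ∈ t then (-(1 / 2) : ℝ) else 0)) :=
      hasSum_sum_of_ne_finset_zero (fun i hi => if_neg hi)
    have h2 : ∑ i ∈ t, (if i ∈ t then (-(1 / 2) : ℝ) else 0) = -(M : ℝ) / 2 := by
      rw [Finset.sum_congr rfl (fun i hi => if_pos hi), Finset.sum_const, htc, nsmul_eq_mul]
      ring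
    rwa [h2] at h1
  have hs2 := hs1.add (summable_w.mul_left 6).hasSum
  rw [tsum_mul_left, ← hS] at hs2
  have := hasSum_le hbound (summable_tm d y n).hasSum hs2
  unfold Phi
  linarith

/-- unboundedness from above -/
lemma Phi_unbdd_above {d y : ℤ_[2]} (hd : Far d) (hy : ∀ z : ℤ, y - d ≠ z) (B : ℝ) :
    ∃ n : ℤ, B ≤ Phi d y n := by
  obtain ⟨n, hn⟩ := Phi_unbdd_below hd.neg hy (-B)
  refine ⟨n, ?_⟩
  rw [Phi_flip] at hn
  linarith

/-- a discrete intermediate value lemma -/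
lemma ivt_aux {f : ℤ → ℝ} {δ s : ℝ} (hf : ∀ m, |f (m + 1) - f m| ≤ δ) {a b : ℤ} (hab : a ≤ b)
    (ha : f a ≤ s) (hb : s ≤ f b) : ∃ m, |f m - s| ≤ δ := by
  have hδ : 0 ≤ δ := (abs_nonneg _).trans (hf a)
  induction b, hab using Int.leInduction with
  | base => exact ⟨_, by rw [le_antisymm ha hb, sub_self, abs_zero]; exact hδ⟩
  | succ n hn ih =>
    by_cases hc : s ≤ f n
    · exact ih hc
    · refine ⟨n, ?_⟩
      have := abs_le.mp (hf n)
      rw [abs_le]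
      constructor <;> linarith [not_le.mp hc]

lemma ivt {f : ℤ → ℝ} {δ s : ℝ} (hf : ∀ m, |f (m + 1) - f m| ≤ δ) {a b : ℤ}
    (ha : f a ≤ s) (hb : s ≤ f b) : ∃ m, |f m - s| ≤ δ := by
  rcases le_total a b with hab | hab
  · exact ivt_aux hf hab ha hb
  · obtain ⟨m, hm⟩ := ivt_aux (f := fun m => - f m) (δ := δ) (s := -s)
      (fun m => by
        have h := hf m
        rw [← abs_neg] at h
        rw [show -f (m + 1) - -f m = -(f (m + 1) - f m) by ring]; exact h) hab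
      (neg_le_neg hb) (neg_le_neg ha)
    refine ⟨m, ?_⟩
    rw [← abs_neg] at hm
    rwa [show -(-f m - -s) = f m - s by ring] at hm

/-- the tail constants -/
noncomputable def del (i : ℕ) : ℝ :=
  ∑' l : ℕ, if l ≤ i then 0 else 2 * (((l : ℝ) + 1) * (1 / 4) ^ l)

lemma summable_del (i : ℕ) :
    Summable (fun l : ℕ => if l ≤ i then (0 : ℝ) else 2 * (((l : ℝ) + 1) * (1 / 4) ^ l)) := by
  refine Summable.of_nonneg_of_le (fun l => ?_) (fun l => ?_) (summable_w.mul_left 2)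
  · split_ifs
    · exact le_rfl
    · positivity
  · split_ifs
    · positivity
    · exact le_rfl

lemma del_tendsto : Tendsto del atTop (𝓝 0) := by
  have h := tendsto_tsum_of_dominated_convergence (𝓕 := atTop)
    (f := fun (i l : ℕ) => if l ≤ i then (0 : ℝ) else 2 * (((l : ℝ) + 1) * (1 / 4) ^ l))
    (g := fun _ => (0 : ℝ)) (summable_w.mul_left 2) (fun l => ?_) (Eventually.of_forall fun i l => ?_)
  · rw [tsum_zero] at h
    exact h
  · apply tendsto_const_nhds.congr'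
    filter_upwards [eventually_ge_atTop l] with i hi
    rw [if_pos hi]
  · rw [Real.norm_eq_abs]
    split_ifs
    · rw [abs_zero]; positivity
    · rw [abs_of_nonneg (by positivity)]

/-- a jump of length `q_i` changes all terms but the `i`-th only a little -/
lemma jump_small (d y : ℤ_[2]) (i : ℕ) :
    |Phi d y (2 ^ (2 * i ^ 2)) - tm d y (2 ^ (2 * i ^ 2)) i| ≤ del i := by
  unfold Phi
  rw [(summable_tm d y (2 ^ (2 * i ^ 2))).tsum_eq_add_tsum_ite i, add_sub_cancel_left,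
    ← Real.norm_eq_abs]
  apply tsum_of_norm_bounded (summable_del i).hasSum
  intro l
  rw [Real.norm_eq_abs]
  rcases lt_trichotomy l i with hl | hl | hl
  · rw [if_neg hl.ne, if_pos hl.le]
    have : tm d y (2 ^ (2 * i ^ 2)) l = 0 := by
      unfold tm
      rw [sub_eq_zero]
      apply psi_congr
      apply congr_of_le (L := 2 * i ^ 2)
      · have := Nat.pow_le_pow_left (show l + 1 ≤ i by omega) 2
        omega
      · rw [map_add, map_intCast]
        push_cast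
        have h2 : ((2 : ZMod (2 ^ (2 * i ^ 2))) ^ (2 * i ^ 2)) = 0 := by
          have := ZMod.natCast_self (2 ^ (2 * i ^ 2))
          push_cast at this
          exact this
        rw [h2, add_zero]
    rw [this, abs_zero]
  · rw [if_pos hl, if_pos hl.le, abs_zero]
  · rw [if_neg hl.ne', if_neg (by omega)]
    unfold tm
    refine (psi_lip d l y _).trans ?_
    have h3 := q_ratio (k := i) (i := l) hl
    push_cast
    rw [abs_of_pos (by positivity : (0 : ℝ) < 2 ^ (2 * i ^ 2))]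
    calc 2 * ((l : ℝ) + 1) * 2 ^ (2 * i ^ 2) / 2 ^ (2 * l ^ 2)
        = 2 * ((l : ℝ) + 1) * (2 ^ (2 * i ^ 2) / 2 ^ (2 * l ^ 2)) := by ring
      _ ≤ 2 * ((l : ℝ) + 1) * (1 / 4) ^ l := mul_le_mul_of_nonneg_left h3 (by positivity)
      _ = _ := by ring

/-- (3) density -/
lemma Phi_dense {d y : ℤ_[2]} (hd : Far d) (hy : ∀ z : ℤ, y ≠ z) (hy' : ∀ z : ℤ, y - d ≠ z)
    (r : ℤ_[2]) (K : ℕ) (t : ℝ) {ε : ℝ} (hε : 0 < ε) :
    ∃ n : ℤ, PadicInt.toZModPow K (y + (n : ℤ_[2])) = PadicInt.toZModPow K r ∧ |Phi d y n - t| < ε := by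
  obtain ⟨i, hi1, hiK, hidel⟩ : ∃ i : ℕ, 1 ≤ i ∧ K ≤ 2 * i ^ 2 ∧ 5 * del i < ε := by
    have h1 : ∀ᶠ i in atTop, del i < ε / 5 := del_tendsto.eventually_lt_const (by positivity)
    obtain ⟨i, hi⟩ := (h1.and (eventually_ge_atTop (K + 1))).exists
    refine ⟨i, by omega, ?_, by linarith [hi.1]⟩
    have h2 := hi.2
    nlinarith [Nat.le_self_pow (n := 2) (by norm_num) i]
  obtain ⟨C, hC0, hC⟩ := Phi_one_bound
  obtain ⟨n0, -, hn0, -⟩ := exists_rep (2 * i ^ 2) (r - y)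
  set q : ℤ := 2 ^ (2 * i ^ 2) with hq
  have hqpos : 0 < q := by positivity
  set W : ℤ → ℝ := fun m => Phi d y (n0 + q * m) - tm d y (n0 + q * m) i with hW
  have hWstep : ∀ m, |W (m + 1) - W m| ≤ del i := by
    intro m
    have h1 : W (m + 1) - W m = Phi d (y + ((n0 + q * m : ℤ) : ℤ_[2])) q -
        tm d (y + ((n0 + q * m : ℤ) : ℤ_[2])) q i := by
      simp only [hW]
      rw [show n0 + q * (m + 1) = (n0 + q * m) + q by ring, Phi_add]
      unfold tm
      rw [Int.cast_add (n0 + q * m) q, add_assoc y]; ring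
    rw [h1, hq]
    exact jump_small d _ i
  have hdel0 : 0 ≤ del i := (abs_nonneg _).trans (hWstep 0)
  have hnear : ∀ n : ℤ, ∃ m : ℤ, |W m - Phi d y n| ≤ C * q + 2 * ((i : ℝ) + 1) := by
    intro n
    refine ⟨(n - n0) / q, ?_⟩
    have h1 : n = (n0 + q * ((n - n0) / q)) + (n - n0) % q := by
      have := Int.mul_ediv_add_emod (n - n0) q
      linarith
    have h2 : Phi d y n = Phi d y (n0 + q * ((n - n0) / q)) +
        Phi d (y + ((n0 + q * ((n - n0) / q) : ℤ) : ℤ_[2])) ((n - n0) % q) := by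
      conv_lhs => rw [h1]
      rw [Phi_add]
    have h3 := hC d (y + ((n0 + q * ((n - n0) / q) : ℤ) : ℤ_[2])) ((n - n0) % q)
    have h4 : |(((n - n0) % q : ℤ) : ℝ)| ≤ q := by
      rw [abs_of_nonneg (by exact_mod_cast Int.emod_nonneg _ hqpos.ne')]
      exact_mod_cast (Int.emod_lt_of_pos _ hqpos).le
    have h5 : |tm d y (n0 + q * ((n - n0) / q)) i| ≤ 2 * ((i : ℝ) + 1) := by
      unfold tm
      refine (abs_sub _ _).trans ?_
      have := psi_abs_le d i (y + ((n0 + q * ((n - n0) / q) : ℤ) : ℤ_[2]))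
      have := psi_abs_le d i y
      linarith
    simp only [hW]
    rw [h2, show Phi d y (n0 + q * ((n - n0) / q)) - tm d y (n0 + q * ((n - n0) / q)) i -
      (Phi d y (n0 + q * ((n - n0) / q)) +
        Phi d (y + ((n0 + q * ((n - n0) / q) : ℤ) : ℤ_[2])) ((n - n0) % q)) =
      -(tm d y (n0 + q * ((n - n0) / q)) i) -
        Phi d (y + ((n0 + q * ((n - n0) / q) : ℤ) : ℤ_[2])) ((n - n0) % q) by ring]
    refine (abs_sub _ _).trans ?_
    rw [abs_neg]
    have h6 := mul_le_mul_of_nonneg_left h4 hC0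
    linarith
  set s : ℝ := t + psi d i y with hs
  obtain ⟨m, hm⟩ : ∃ m, |W m - s| ≤ del i := by
    obtain ⟨n1, hn1⟩ := Phi_unbdd_below hd hy (s - (C * q + 2 * ((i : ℝ) + 1)))
    obtain ⟨n2, hn2⟩ := Phi_unbdd_above hd hy' (s + (C * q + 2 * ((i : ℝ) + 1)))
    obtain ⟨m1, hm1⟩ := hnear n1
    obtain ⟨m2, hm2⟩ := hnear n2
    have := abs_le.mp hm1
    have := abs_le.mp hm2
    exact ivt hWstep (a := m1) (b := m2) (by linarith) (by linarith)
  have hm1 := abs_le.mp (hWstep m)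
  have hm2 := abs_le.mp (hWstep (m + 1))
  have hm3 := abs_le.mp (hWstep (m + 1 + 1))
  have hm4 := abs_le.mp (hWstep (m + 1 + 1 + 1))
  have hm0 := abs_le.mp hm
  -- the good candidate
  have hgood : ∃ m' : ℤ, |W m' - s| ≤ 5 * del i ∧
      A i (y + ((n0 + q * m' : ℤ) : ℤ_[2])) = 0 ∧
      A i (y + ((n0 + q * m' : ℤ) : ℤ_[2]) - d) = 0 := by
    set u : ℤ_[2] := y + ((n0 + q * m : ℤ) : ℤ_[2]) with hu
    have e1 : y + ((n0 + q * (m + 1 + 1) : ℤ) : ℤ_[2]) = u + ((2 * 1 * q : ℤ) : ℤ_[2]) := by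
      rw [hu]; push_cast; ring
    have e2 : y + ((n0 + q * (m + 1 + 1 + 1 + 1) : ℤ) : ℤ_[2]) = u + ((2 * 2 * q : ℤ) : ℤ_[2]) := by
      rw [hu]; push_cast; ring
    have e3 : u + ((2 * 1 * q : ℤ) : ℤ_[2]) + ((2 * 1 * q : ℤ) : ℤ_[2]) =
        u + ((2 * 2 * q : ℤ) : ℤ_[2]) := by push_cast; ring
    have c1 : ∀ v, A i v = 0 ∨ A i (v + ((2 * 1 * q : ℤ) : ℤ_[2])) = 0 :=
      fun v => not_both hi1 v (l := 1) le_rfl (by norm_num)
    have c2 : ∀ v, A i v = 0 ∨ A i (v + ((2 * 2 * q : ℤ) : ℤ_[2])) = 0 :=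
      fun v => not_both hi1 v (l := 2) (by norm_num) le_rfl
    have f1 := c1 u
    have f2 := c2 u
    have f3 := c1 (u + ((2 * 1 * q : ℤ) : ℤ_[2]))
    rw [e3] at f3
    have g1 := c1 (u - d)
    have g2 := c2 (u - d)
    have g3 := c1 (u + ((2 * 1 * q : ℤ) : ℤ_[2]) - d)
    rw [show u + ((2 * 1 * q : ℤ) : ℤ_[2]) - d + ((2 * 1 * q : ℤ) : ℤ_[2]) =
      u + ((2 * 2 * q : ℤ) : ℤ_[2]) - d by push_cast; ring] at g3
    rw [show u - d + ((2 * 1 * q : ℤ) : ℤ_[2]) = u + ((2 * 1 * q : ℤ) : ℤ_[2]) - d by ring] at g1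
    rw [show u - d + ((2 * 2 * q : ℤ) : ℤ_[2]) = u + ((2 * 2 * q : ℤ) : ℤ_[2]) - d by ring] at g2
    have b0 : |W m - s| ≤ 5 * del i := by linarith
    have b1 : |W (m + 1 + 1) - s| ≤ 5 * del i := by rw [abs_le]; constructor <;> linarith
    have b2 : |W (m + 1 + 1 + 1 + 1) - s| ≤ 5 * del i := by rw [abs_le]; constructor <;> linarith
    by_cases p0 : A i u = 0 ∧ A i (u - d) = 0
    · exact ⟨m, b0, p0⟩
    by_cases p1 : A i (u + ((2 * 1 * q : ℤ) : ℤ_[2])) = 0 ∧ A i (u + ((2 * 1 * q : ℤ) : ℤ_[2]) - d) = 0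
    · exact ⟨m + 1 + 1, b1, by rw [e1]; exact p1⟩
    refine ⟨m + 1 + 1 + 1 + 1, b2, ?_⟩
    rw [e2]
    constructor
    · by_contra h
      have a0 := f2.resolve_right h
      have a1 := f3.resolve_right h
      rcases g1 with b | b
      · exact p0 ⟨a0, b⟩
      · exact p1 ⟨a1, b⟩
    · by_contra h
      have a0 := g2.resolve_right h
      have a1 := g3.resolve_right h
      rcases f1 with b | b
      · exact p0 ⟨b, a0⟩
      · exact p1 ⟨b, a1⟩
  obtain ⟨m', hm', ha, hb⟩ := hgood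
  refine ⟨n0 + q * m', ?_, ?_⟩
  · apply congr_of_le hiK
    rw [map_add, map_intCast]
    have h2 : ((2 : ZMod (2 ^ (2 * i ^ 2))) ^ (2 * i ^ 2)) = 0 := by
      have := ZMod.natCast_self (2 ^ (2 * i ^ 2))
      push_cast at this
      exact this
    rw [hq]
    push_cast
    rw [h2, zero_mul, add_zero, ← hn0, map_sub]; ring
  · have h1 : tm d y (n0 + q * m') i = - psi d i y := by
      unfold tm
      rw [show psi d i (y + ((n0 + q * m' : ℤ) : ℤ_[2])) = 0 by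
        unfold psi; rw [ha, hb]; ring, zero_sub]
    have h2 : Phi d y (n0 + q * m') - t = W m' - s := by
      simp only [hW, hs]
      rw [h1]; ring
    rw [h2]
    linarith

end Pool.Agent.R963.Bes
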