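import Pool.Agent.R963.Bes.Core

/-!
# Topology: cylindrical transformations, their orbits, and the example
-/

namespace Pool.Agent.R963.Bes

open Filter Topology

/-- The cylindrical transformation `T_φ (x, t) = (x + α, t + φ x)` as a homeomorphism of
`X × ℝ`. -/
def cyl {X : Type} [TopologicalSpace X] [AddCommGroup X] [IsTopologicalAddGroup X] (α : X)
    (φ : C(X, ℝ)) : (X × ℝ) ≃ₜ (X × ℝ) where
  toFun p := (p.1 + α, p.2 + φ p.1)
  invFun p := (p.1 - α, p.2 - φ (p.1 - α))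
  left_inv p := by ext <;> simp
  right_inv p := by ext <;> simp
  continuous_toFun := by fun_prop
  continuous_invFun := by fun_prop

/-- The full `ℤ`-orbit of `z` under the cylindrical transformation. -/
def orbit {X : Type} [TopologicalSpace X] [AddCommGroup X] [IsTopologicalAddGroup X] (α : X)
    (φ : C(X, ℝ)) (z : X × ℝ) : Set (X × ℝ) :=
  Set.range fun n : ℤ => ((cyl α φ) ^ n) z

/-- An orbit is discrete if each of its points has a neighbourhood meeting the orbit only in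
that point. -/
def IsDiscreteOrbit {X : Type} [TopologicalSpace X] [AddCommGroup X] [IsTopologicalAddGroup X]
    (α : X) (φ : C(X, ℝ)) (z : X × ℝ) : Prop :=
  ∀ w ∈ orbit α φ z, ∃ U ∈ 𝓝 w, U ∩ orbit α φ z = {w}

lemma congr_iff_norm (K : ℕ) (x y : ℤ_[2]) :
    PadicInt.toZModPow K x = PadicInt.toZModPow K y ↔ ‖x - y‖ ≤ (2 : ℝ) ^ (-(K : ℤ)) := by
  have := PadicInt.norm_le_pow_iff_mem_span_pow (p := 2) (x - y) K
  push_cast at this
  rw [this, ← Nat.cast_ofNat (R := ℤ_[2]) (n := 2), ← PadicInt.ker_toZModPow, RingHom.mem_ker,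
    map_sub, sub_eq_zero]

lemma eventually_congr (K : ℕ) (x : ℤ_[2]) :
    ∀ᶠ y in 𝓝 x, PadicInt.toZModPow K y = PadicInt.toZModPow K x := by
  have h : Metric.ball x ((2 : ℝ) ^ (-(K : ℤ))) ∈ 𝓝 x := Metric.ball_mem_nhds x (by positivity)
  filter_upwards [h] with y hy
  rw [congr_iff_norm, ← dist_eq_norm]
  exact (Metric.mem_ball.mp hy).le

lemma exists_cylinder {x : ℤ_[2]} {U : Set ℤ_[2]} (hU : U ∈ 𝓝 x) :
    ∃ K : ℕ, ∀ y, PadicInt.toZModPow K y = PadicInt.toZModPow K x → y ∈ U := by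
  obtain ⟨ε, hε, hU⟩ := Metric.mem_nhds_iff.mp hU
  obtain ⟨K, hK⟩ := exists_pow_lt_of_lt_one hε (by norm_num : (1 / 2 : ℝ) < 1)
  refine ⟨K, fun y hy => hU ?_⟩
  rw [Metric.mem_ball, dist_eq_norm]
  refine ((congr_iff_norm K y x).mp hy).trans_lt ?_
  rw [zpow_neg, zpow_natCast]
  rwa [one_div, inv_pow] at hK

lemma continuous_of_congr {f : ℤ_[2] → ℝ} (K : ℕ)
    (hf : ∀ x y, PadicInt.toZModPow K x = PadicInt.toZModPow K y → f x = f y) : Continuous f := by
  rw [continuous_iff_continuousAt]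
  intro x
  apply tendsto_const_nhds.congr'
  filter_upwards [eventually_congr K x] with y hy
  exact (hf y x hy).symm

lemma continuous_Phi (d : ℤ_[2]) (n : ℤ) : Continuous fun y => Phi d y n := by
  unfold Phi
  refine continuous_tsum (u := fun i : ℕ => 2 * |(n : ℝ)| * (((i : ℝ) + 1) * (1 / 4) ^ i))
    (fun i => ?_) (summable_w.mul_left _) (fun i y => by
      rw [Real.norm_eq_abs]; exact tm_le d y n i)
  apply continuous_of_congr (2 * (i + 1) ^ 2)
  intro x y hxy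
  unfold tm
  rw [psi_congr hxy, psi_congr (x := x + n) (y := y + n) (by rw [map_add, map_add, hxy])]

/-- the function `φ` -/
noncomputable def phi (d : ℤ_[2]) : C(ℤ_[2], ℝ) := ⟨fun y => Phi d y 1, continuous_Phi d 1⟩

lemma cyl_zpow (d : ℤ_[2]) (n : ℤ) (x : ℤ_[2]) (t : ℝ) :
    ((cyl 1 (phi d)) ^ n) (x, t) = (x + n, t + Phi d x n) := by
  induction n using Int.induction_on with
  | zero => simp [Phi_zero]
  | succ n ih =>
    rw [zpow_add_one, (Commute.zpow_self (cyl 1 (phi d)) (n : ℤ)).eq]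
    change (cyl 1 (phi d)) (((cyl 1 (phi d)) ^ (n : ℤ)) (x, t)) = _
    rw [ih]
    change (x + ((n : ℤ) : ℤ_[2]) + 1, t + Phi d x n + Phi d (x + ((n : ℤ) : ℤ_[2])) 1) = _
    rw [Phi_add]
    push_cast
    rw [add_assoc, add_assoc]
  | pred n ih =>
    rw [zpow_sub_one, (Commute.inv_right (Commute.zpow_self (cyl 1 (phi d)) (-(n : ℤ)))).eq]
    change (cyl 1 (phi d))⁻¹ (((cyl 1 (phi d)) ^ (-(n : ℤ))) (x, t)) = _
    rw [ih]
    change (x + ((-(n : ℤ) : ℤ) : ℤ_[2]) - 1, t + Phi d x (-(n : ℤ)) -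
      Phi d (x + ((-(n : ℤ) : ℤ) : ℤ_[2]) - 1) 1) = _
    have h : Phi d x (-(n : ℤ)) = Phi d x (-(n : ℤ) - 1) +
        Phi d (x + ((-(n : ℤ) - 1 : ℤ) : ℤ_[2])) 1 := by
      rw [← Phi_add, sub_add_cancel]
    rw [h]
    have e : x + ((-(n : ℤ) - 1 : ℤ) : ℤ_[2]) = x + ((-(n : ℤ) : ℤ) : ℤ_[2]) - 1 := by
      push_cast; ring
    rw [e]
    ext
    · simp
    · simp only []
      ring

lemma mem_orbit_iff (d : ℤ_[2]) (x : ℤ_[2]) (t : ℝ) (w : ℤ_[2] × ℝ) :
    w ∈ orbit 1 (phi d) (x, t) ↔ ∃ n : ℤ, (x + (n : ℤ_[2]), t + Phi d x n) = w := by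
  unfold orbit
  simp only [Set.mem_range, cyl_zpow]

lemma discrete_of_div {d x : ℤ_[2]} (t : ℝ)
    (h : ∀ B : ℝ, ∃ R : ℕ, ∀ n : ℤ, R ≤ n.natAbs → B ≤ |Phi d x n|) :
    IsDiscreteOrbit 1 (phi d) (x, t) := by
  intro w hw
  obtain ⟨m, hm⟩ := (mem_orbit_iff d x t w).mp hw
  obtain ⟨R, hR⟩ := h (|Phi d x m| + 1)
  set F : Set (ℤ_[2] × ℝ) := (fun n : ℤ => (x + (n : ℤ_[2]), t + Phi d x n)) ''
    {n : ℤ | n.natAbs < R} with hF
  have hFfin : F.Finite := by
    apply Set.Finite.image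
    apply (Set.finite_Ioo (-(R : ℤ)) R).subset
    intro n hn
    have hn' : n.natAbs < R := hn
    rw [Set.mem_Ioo]
    omega
  refine ⟨{p | |p.2 - w.2| < 1} ∩ (F \ {w})ᶜ, ?_, ?_⟩
  · apply inter_mem
    · apply IsOpen.mem_nhds
      · exact isOpen_lt (by fun_prop) continuous_const
      · simp
    · apply IsOpen.mem_nhds
      · exact (hFfin.subset Set.sdiff_subset).isClosed.isOpen_compl
      · simp
  · ext p
    simp only [Set.mem_inter_iff, Set.mem_ofPred_eq, Set.mem_compl_iff, Set.mem_sdiff,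
      Set.mem_singleton_iff, not_and, not_not]
    constructor
    · rintro ⟨⟨h1, h2⟩, h3⟩
      obtain ⟨n, hn⟩ := (mem_orbit_iff d x t p).mp h3
      apply h2
      refine ⟨n, ?_, hn⟩
      change n.natAbs < R
      by_contra hc
      have h4 := hR n (not_lt.mp hc)
      rw [← hn, ← hm] at h1
      simp only at h1
      have h5 : |Phi d x n| ≤ |Phi d x m| + |t + Phi d x n - (t + Phi d x m)| := by
        have := abs_add_le (Phi d x m) (t + Phi d x n - (t + Phi d x m))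
        rwa [show Phi d x m + (t + Phi d x n - (t + Phi d x m)) = Phi d x n by ring] at this
      linarith
    · rintro rfl
      exact ⟨⟨by simp, fun _ => rfl⟩, hw⟩

lemma div_int {d : ℤ_[2]} (hd : Far d) (z : ℤ) (B : ℝ) :
    ∃ R : ℕ, ∀ n : ℤ, R ≤ n.natAbs → B ≤ Phi d (z : ℤ_[2]) n := by
  obtain ⟨R, hR⟩ := Phi_zero_orbit hd (B + Phi d 0 z)
  refine ⟨R + z.natAbs, fun n hn => ?_⟩
  have h1 := hR (z + n) (by omega)
  rw [Phi_add, zero_add] at h1
  linarith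

lemma dense_of_not {d x : ℤ_[2]} (t : ℝ) (hd : Far d) (hy : ∀ z : ℤ, x ≠ z)
    (hy' : ∀ z : ℤ, x - d ≠ z) : Dense (orbit 1 (phi d) (x, t)) := by
  rw [dense_iff_inter_open]
  rintro U hU ⟨w, hw⟩
  obtain ⟨V, hV, W, hW, hVW⟩ := mem_nhds_prod_iff.mp (hU.mem_nhds hw)
  obtain ⟨K, hK⟩ := exists_cylinder hV
  obtain ⟨ε, hε, hball⟩ := Metric.mem_nhds_iff.mp hW
  obtain ⟨n, hn1, hn2⟩ := Phi_dense hd hy hy' w.1 K (w.2 - t) hε
  refine ⟨(x + (n : ℤ_[2]), t + Phi d x n), hVW ⟨hK _ hn1, hball ?_⟩,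
    (mem_orbit_iff _ _ _ _).mpr ⟨n, rfl⟩⟩
  simp only [Metric.mem_ball, Real.dist_eq]
  rwa [show t + Phi d x n - w.2 = Phi d x n - (w.2 - t) by ring]

lemma isUnit_odd {k : ℤ} (hk : ¬ (2 : ℤ) ∣ k) : IsUnit (k : ℤ_[2]) := by
  rw [PadicInt.isUnit_iff]
  have h := (PadicInt.norm_int_lt_one_iff_dvd (p := 2) k).not.mpr (by exact_mod_cast hk)
  exact le_antisymm (PadicInt.norm_le_one _) (not_lt.mp h)

lemma exists_solution {k : ℤ} (hk : ¬ (2 : ℤ) ∣ k) (a : ℤ_[2]) : ∃ x : ℤ_[2], (k : ℤ_[2]) * x = a := by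
  obtain ⟨u, hu⟩ := isUnit_odd hk
  exact ⟨(↑u⁻¹ : ℤ_[2]) * a, by rw [← mul_assoc, ← hu, Units.mul_inv, one_mul]⟩

lemma far_of {d : ℤ_[2]} (hd : ((3 : ℤ) : ℤ_[2]) * d = -1) : Far d := by
  intro i
  obtain ⟨z, hz1, hz2, -⟩ := exists_rep (2 * (i + 1) ^ 2) d
  rw [← hz1]
  by_contra hc
  rw [not_le] at hc
  have h1 : ((3 * z + 1 : ℤ) : ZMod (2 ^ (2 * (i + 1) ^ 2))) = 0 := by
    have := congrArg (PadicInt.toZModPow (2 * (i + 1) ^ 2)) hd
    rw [map_mul, map_intCast, hz2, map_neg, map_one] at this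
    push_cast at this ⊢
    rw [this]; ring
  rw [ZMod.intCast_zmod_eq_zero_iff_dvd] at h1
  have h2 : 3 * z + 1 = 0 := by
    apply Int.eq_zero_of_abs_lt_dvd h1
    push_cast
    have h3 : ((z.natAbs : ℕ) : ℤ) < 2 ^ (2 * i ^ 2) := by exact_mod_cast hc
    rw [Int.natCast_natAbs] at h3
    have h4 : (4 : ℤ) * 2 ^ (2 * i ^ 2) ≤ 2 ^ (2 * (i + 1) ^ 2) := by
      have : (4 : ℤ) * 2 ^ (2 * i ^ 2) = 2 ^ (2 * i ^ 2 + 2) := by rw [pow_add]; ring
      rw [this]
      apply pow_le_pow_right₀ (by norm_num)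
      have : (i + 1) ^ 2 = i ^ 2 + 2 * i + 1 := by ring
      omega
    have h5 := abs_add_le (3 * z) 1
    rw [abs_mul, abs_one] at h5
    have h6 : |(3 : ℤ)| = 3 := by norm_num
    rw [h6] at h5
    have h7 := abs_nonneg z
    omega
  omega

/-- **The example.** -/
theorem example_exists : ∃ (X : Type) (_ : MetricSpace X) (_ : AddCommGroup X)
    (_ : IsTopologicalAddGroup X) (_ : CompactSpace X) (α : X) (φ : C(X, ℝ)),
    (∀ x : X, Dense (Set.range fun n : ℤ => x + n • α)) ∧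
    (∃ z : X × ℝ, Dense (orbit α φ z)) ∧
    (∃ z : X × ℝ, IsDiscreteOrbit α φ z) ∧
    ∀ z : X × ℝ, Dense (orbit α φ z) ∨ IsDiscreteOrbit α φ z := by
  obtain ⟨d, hd⟩ := exists_solution (k := 3) (by norm_num) (-1)
  obtain ⟨e, he⟩ := exists_solution (k := 5) (by norm_num) 1
  have hfar := far_of hd
  refine ⟨ℤ_[2], inferInstance, inferInstance, inferInstance, inferInstance, 1, phi d, ?_, ?_,
    ?_, ?_⟩
  · intro x
    rw [dense_iff_inter_open]
    rintro U hU ⟨w, hw⟩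
    obtain ⟨K, hK⟩ := exists_cylinder (hU.mem_nhds hw)
    obtain ⟨z, -, hz, -⟩ := exists_rep K (w - x)
    refine ⟨x + z • (1 : ℤ_[2]), hK _ ?_, ⟨z, rfl⟩⟩
    rw [zsmul_one, map_add, map_intCast, ← hz, map_sub]; ring
  · refine ⟨(e, 0), dense_of_not 0 hfar ?_ ?_⟩
    · intro z hz
      have : ((5 * z : ℤ) : ℤ_[2]) = ((1 : ℤ) : ℤ_[2]) := by
        rw [hz] at he
        push_cast at he ⊢
        exact he
      have h2 : 5 * z = 1 := by exact_mod_cast this
      omega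
    · intro z hz
      have : ((15 * z : ℤ) : ℤ_[2]) = ((8 : ℤ) : ℤ_[2]) := by
        push_cast at he hd ⊢
        rw [← hz]
        linear_combination 3 * he - 5 * hd
      have h2 : 15 * z = 8 := by exact_mod_cast this
      omega
  · refine ⟨(((0 : ℤ) : ℤ_[2]), 0), discrete_of_div 0 fun B => ?_⟩
    obtain ⟨R, hR⟩ := div_int hfar 0 B
    exact ⟨R, fun n hn => (hR n hn).trans (le_abs_self _)⟩
  · rintro ⟨x, t⟩
    by_cases h1 : ∀ z : ℤ, x ≠ z
    · by_cases h2 : ∀ z : ℤ, x - d ≠ z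
      · exact Or.inl (dense_of_not t hfar h1 h2)
      · right
        push Not at h2
        obtain ⟨z, hz⟩ := h2
        apply discrete_of_div
        intro B
        obtain ⟨R, hR⟩ := div_int hfar.neg z B
        refine ⟨R, fun n hn => ?_⟩
        have := hR n hn
        rw [← hz, Phi_flip] at this
        exact this.trans (neg_le_abs _)
    · right
      push Not at h1
      obtain ⟨z, hz⟩ := h1
      apply discrete_of_div
      intro B
      obtain ⟨R, hR⟩ := div_int hfar z B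
      exact ⟨R, fun n hn => by rw [hz]; exact (hR n hn).trans (le_abs_self _)⟩

end Pool.Agent.R963.Bes
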